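import Mathlib
import Pool.Agent.H32.HT.Final

set_option autoImplicit false

namespace Pool.Agent.Results.MP_b5ed04_co.UniqueMaximizer

open MeasureTheory Set

/-- A plane convex body: a compact convex set with nonempty interior. -/
def IsBody (K : Set (ℝ × ℝ)) : Prop := Convex ℝ K ∧ IsCompact K ∧ (interior K).Nonempty

/-- Lebesgue area. -/
noncomputable def area (A : Set (ℝ × ℝ)) : ℝ := (volume A).toReal

/-- The polar of a set. -/
def polar (M : Set (ℝ × ℝ)) : Set (ℝ × ℝ) := {y | ∀ x ∈ M, x.1 * y.1 + x.2 * y.2 ≤ 1}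

/-- The unit ball of the relative norm of `K`. -/
def relBall (K : Set (ℝ × ℝ)) : Set (ℝ × ℝ) :=
  {z | ∃ x ∈ K, ∃ y ∈ K, z = (1 / 2 : ℝ) • (x - y)}

/-- The Holmes-Thompson area of `A` for the norm with unit ball `M`. -/
noncomputable def volHT (M A : Set (ℝ × ℝ)) : ℝ := area A * area (polar M) / Real.pi

/-- The values whose maximum is the Holmes-Thompson translative constant of `K`. -/
def values (K : Set (ℝ × ℝ)) : Set ℝ :=
  {v | ∃ p : ℝ × ℝ, ((fun x => p + x) '' K ∩ K).Nonempty ∧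
    v = volHT (relBall K) (convexHull ℝ (K ∪ (fun x => p + x) '' K))}

/-- The Holmes-Thompson translative constant. -/
noncomputable def cTr (K : Set (ℝ × ℝ)) : ℝ := sSup (values K)

/-- The second semi-axis of the ellipse with semi-axis `a` through the vertices of the square with
vertices `(±1/√2, ±1/√2)`. -/
noncomputable def semiB (a : ℝ) : ℝ := a / √(2 * a ^ 2 - 1)

/-- The body bounded by four elliptic arcs: the region between the top and the bottom arc, and the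
region between the left and the right arc. -/
def M0 (a : ℝ) : Set (ℝ × ℝ) :=
  {p | |p.1| ≤ 1 / √2 ∧ |p.2| ≤ semiB a * √(1 - p.1 ^ 2 / a ^ 2)} ∪
  {p | |p.2| ≤ 1 / √2 ∧ |p.1| ≤ semiB a * √(1 - p.2 ^ 2 / a ^ 2)}

open H32.HT

theorem greatest {K : Set (ℝ × ℝ)} (hK : IsBody K) :
    ∃ x0 ∈ H32.HT.relBall K, ∃ y0 ∈ H32.HT.relBall K, 0 < dt x0 y0 ∧
      (∀ x ∈ H32.HT.relBall K, ∀ y ∈ H32.HT.relBall K, dt x y ≤ dt x0 y0) ∧
      IsGreatest (values K)
        ((H32.HT.area K + 4 * dt x0 y0) * H32.HT.area (H32.HT.polar (H32.HT.relBall K)) /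
          Real.pi) := by
  obtain ⟨hcv, hc, hi⟩ := hK
  have hne : K.Nonempty := hi.mono interior_subset
  obtain ⟨x0, hx0, y0, hy0, hD, hm⟩ := exists_max_dt (relBall_compact hc) relBall_sym
    (relBall_interior hi)
  refine ⟨x0, hx0, y0, hy0, hD, hm, ?_⟩
  have hfin : volume K ≠ ⊤ := hc.measure_ne_top
  have hP : 0 ≤ H32.HT.area (H32.HT.polar (H32.HT.relBall K)) := area_nonneg _
  have hpi := Real.pi_pos
  -- the area of the hull
  have hhull : ∀ p : ℝ × ℝ, ∃ z1 ∈ K, ∃ z2 ∈ K, (∀ z ∈ K, dt p z ≤ dt p z1) ∧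
      (∀ z ∈ K, dt p z2 ≤ dt p z) ∧
      H32.HT.area (convexHull ℝ (K ∪ (fun x => p + x) '' K)) =
        H32.HT.area K + (dt p z1 - dt p z2) := by
    intro p
    obtain ⟨z1, h1, z2, h2, hmax, hmin, hv⟩ := vol_sweep hcv hc hne p
    refine ⟨z1, h1, z2, h2, hmax, hmin, ?_⟩
    rw [hull_eq_sweep hcv hne]
    unfold H32.HT.area
    rw [hv, ENNReal.toReal_add hfin ENNReal.ofReal_ne_top, ENNReal.toReal_ofReal]
    have := hmax _ h2
    linarith
  have hval : ∀ p : ℝ × ℝ, volHT (relBall K) (convexHull ℝ (K ∪ (fun x => p + x) '' K)) =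
      H32.HT.area (convexHull ℝ (K ∪ (fun x => p + x) '' K)) *
        H32.HT.area (H32.HT.polar (H32.HT.relBall K)) / Real.pi := fun p => rfl
  have hup : ∀ p : ℝ × ℝ, (1 / 2 : ℝ) • p ∈ H32.HT.relBall K →
      H32.HT.area (convexHull ℝ (K ∪ (fun x => p + x) '' K)) ≤
        H32.HT.area K + 4 * dt x0 y0 := by
    intro p hp
    obtain ⟨z1, h1, z2, h2, hmax, hmin, hv⟩ := hhull p
    have := hm _ hp ((1 / 2 : ℝ) • (z1 - z2)) ⟨z1, h1, z2, h2, rfl⟩
    rw [hv]
    unfold dt at this ⊢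
    simp only [Prod.smul_fst, Prod.smul_snd, Prod.fst_sub, Prod.snd_sub, smul_eq_mul] at this
    linarith
  constructor
  · obtain ⟨a, ha, b, hb, hab⟩ := hx0
    obtain ⟨c, hc', d, hd, hcd⟩ := hy0
    refine ⟨a - b, ⟨a, ⟨b, hb, by simp⟩, ha⟩, ?_⟩
    rw [hval]
    have h1 : H32.HT.area (convexHull ℝ (K ∪ (fun x => (a - b) + x) '' K)) =
        H32.HT.area K + 4 * dt x0 y0 := by
      apply le_antisymm
      · exact hup _ ⟨a, ha, b, hb, rfl⟩
      · obtain ⟨z1, h1, z2, h2, hmax, hmin, hv⟩ := hhull (a - b)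
        have k1 := hmax _ hc'
        have k2 := hmin _ hd
        rw [hv, hab, hcd]
        unfold dt at k1 k2 ⊢
        simp only [Prod.smul_fst, Prod.smul_snd, Prod.fst_sub, Prod.snd_sub, smul_eq_mul] at k1 k2 ⊢
        linarith
    rw [h1]
  · rintro v ⟨p, ⟨_, ⟨x, hx, rfl⟩, hpx⟩, rfl⟩
    rw [hval]
    have h1 := hup p ⟨p + x, hpx, x, hx, by simp⟩
    apply div_le_div_of_nonneg_right _ hpi.le
    exact mul_le_mul_of_nonneg_right h1 hP

theorem lin_lin (a b c d a' b' c' d' : ℝ) (z : ℝ × ℝ) :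
    lin a b c d (lin a' b' c' d' z) =
      lin (a * a' + b * c') (a * b' + b * d') (c * a' + d * c') (c * b' + d * d') z := by
  simp only [lin_apply]
  ext
  · simp only; ring
  · simp only; ring

/-- Description of `M0 a` by one inequality. -/
theorem mem_M0 {a : ℝ} (ha : 1 < a) (p : ℝ × ℝ) :
    p ∈ M0 a ↔ p.1 ^ 2 + p.2 ^ 2 + (1 - 1 / a ^ 2) * |p.1 ^ 2 - p.2 ^ 2| ≤ 1 := by
  have ha2 : 1 < a ^ 2 := by nlinarith
  set k := 1 / a ^ 2 with hk
  have hk0 : 0 < k := by positivity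
  have hk1 : k < 1 := by rw [hk, div_lt_one (by positivity)]; exact ha2
  have hb0 : 0 < semiB a := by
    unfold semiB
    have : 0 < √(2 * a ^ 2 - 1) := Real.sqrt_pos.2 (by linarith)
    positivity
  have hb2 : semiB a ^ 2 * (2 - k) = 1 := by
    unfold semiB
    rw [div_pow, Real.sq_sqrt (by linarith), hk]
    have : 2 * a ^ 2 - 1 ≠ 0 := by linarith
    have ha0 : a ^ 2 ≠ 0 := by linarith
    rw [div_mul_eq_mul_div, div_eq_one_iff_eq this, mul_sub, mul_one_div_cancel ha0]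
    ring
  have hsq : (1 / √2 : ℝ) ^ 2 = 1 / 2 := by
    rw [div_pow, Real.sq_sqrt (by norm_num)]; norm_num
  have habs : ∀ x : ℝ, |x| ≤ 1 / √2 ↔ x ^ 2 ≤ 1 / 2 := by
    intro x
    rw [← hsq, sq_le_sq, abs_of_pos (show (0 : ℝ) < 1 / √2 by positivity)]
  have harc : ∀ x y : ℝ, x ^ 2 ≤ 1 / 2 →
      (|y| ≤ semiB a * √(1 - x ^ 2 / a ^ 2) ↔ k * x ^ 2 + (2 - k) * y ^ 2 ≤ 1) := by
    intro x y hx
    have e1 : x ^ 2 / a ^ 2 = k * x ^ 2 := by rw [hk]; ring
    rw [e1]
    have h1 : 0 ≤ 1 - k * x ^ 2 := by nlinarith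
    have h2 : 0 ≤ semiB a * √(1 - k * x ^ 2) := by positivity
    have h3 : (semiB a * √(1 - k * x ^ 2)) ^ 2 = semiB a ^ 2 * (1 - k * x ^ 2) := by
      rw [mul_pow, Real.sq_sqrt h1]
    rw [← abs_of_nonneg h2, ← sq_le_sq, h3]
    constructor
    · intro h
      have := mul_le_mul_of_nonneg_left h (by linarith : 0 ≤ 2 - k)
      have e2 : (2 - k) * (semiB a ^ 2 * (1 - k * x ^ 2)) = 1 - k * x ^ 2 := by
        rw [← mul_assoc, mul_comm (2 - k), hb2, one_mul]
      rw [e2] at this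
      linarith
    · intro h
      have h4 := mul_le_mul_of_nonneg_left h (sq_nonneg (semiB a))
      have e2 : semiB a ^ 2 * (k * x ^ 2 + (2 - k) * y ^ 2) =
          semiB a ^ 2 * (k * x ^ 2) + y ^ 2 := by
        have : semiB a ^ 2 * ((2 - k) * y ^ 2) = y ^ 2 := by
          rw [← mul_assoc, hb2, one_mul]
        rw [mul_add, this]
      rw [e2] at h4
      linarith
  obtain ⟨x, y⟩ := p
  have hmem : ((x, y) : ℝ × ℝ) ∈ M0 a ↔ (x ^ 2 ≤ 1 / 2 ∧ k * x ^ 2 + (2 - k) * y ^ 2 ≤ 1) ∨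
      (y ^ 2 ≤ 1 / 2 ∧ k * y ^ 2 + (2 - k) * x ^ 2 ≤ 1) := by
    unfold M0
    simp only [mem_union, mem_ofPred_eq]
    rw [habs, habs]
    constructor
    · rintro (⟨h1, h2⟩ | ⟨h1, h2⟩)
      · exact Or.inl ⟨h1, (harc x y h1).1 h2⟩
      · exact Or.inr ⟨h1, (harc y x h1).1 h2⟩
    · rintro (⟨h1, h2⟩ | ⟨h1, h2⟩)
      · exact Or.inl ⟨h1, (harc x y h1).2 h2⟩
      · exact Or.inr ⟨h1, (harc y x h1).2 h2⟩
  rw [hmem]
  simp only
  rcases le_total (x ^ 2) (y ^ 2) with h | h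
  · rw [abs_of_nonpos (by linarith)]
    constructor
    · rintro (⟨h1, h2⟩ | ⟨h1, h2⟩)
      · linarith
      · nlinarith
    · intro h1
      left
      constructor
      · nlinarith
      · linarith
  · rw [abs_of_nonneg (by linarith)]
    constructor
    · rintro (⟨h1, h2⟩ | ⟨h1, h2⟩)
      · nlinarith
      · linarith
    · intro h1
      right
      constructor
      · nlinarith
      · linarith

/-- The number `1 / √2`. -/
noncomputable def q2 : ℝ := 1 / √2

theorem q2_sq : q2 * q2 = 1 / 2 := by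
  unfold q2
  rw [div_mul_div_comm, Real.mul_self_sqrt (by norm_num)]
  norm_num

theorem M0_eq {a : ℝ} (ha : 1 < a) : M0 a = lin q2 (-q2) q2 q2 '' Mst (1 - 1 / a ^ 2) := by
  have hq := q2_sq
  ext ⟨X, Y⟩
  rw [mem_M0 ha]
  constructor
  · intro h
    refine ⟨lin q2 q2 (-q2) q2 (X, Y), ?_, ?_⟩
    · unfold Mst
      simp only [mem_ofPred_eq, lin_apply] at h ⊢
      have e1 : (q2 * X + q2 * Y) ^ 2 + (-q2 * X + q2 * Y) ^ 2 = X ^ 2 + Y ^ 2 := by
        linear_combination (2 * X ^ 2 + 2 * Y ^ 2) * hq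
      have e2 : (q2 * X + q2 * Y) * (-q2 * X + q2 * Y) = -((X ^ 2 - Y ^ 2) / 2) := by
        linear_combination (Y ^ 2 - X ^ 2) * hq
      rw [e1, e2, abs_neg, abs_div, abs_of_pos (show (0 : ℝ) < 2 by norm_num)]
      linarith
    · rw [lin_lin]
      simp only [lin_apply]
      ext
      · simp only
        linear_combination (2 * X) * hq
      · simp only
        linear_combination (2 * Y) * hq
  · rintro ⟨⟨x, y⟩, hxy, he⟩
    simp only [lin_apply, Prod.mk.injEq] at he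
    obtain ⟨rfl, rfl⟩ := he
    unfold Mst at hxy
    simp only [mem_ofPred_eq] at hxy ⊢
    have e1 : (q2 * x + -q2 * y) ^ 2 + (q2 * x + q2 * y) ^ 2 = x ^ 2 + y ^ 2 := by
      linear_combination (2 * x ^ 2 + 2 * y ^ 2) * hq
    have e2 : (q2 * x + -q2 * y) ^ 2 - (q2 * x + q2 * y) ^ 2 = -(2 * (x * y)) := by
      linear_combination (-4 * x * y) * hq
    rw [e1, e2, abs_neg, abs_mul, abs_of_pos (show (0 : ℝ) < 2 by norm_num)]
    linarith

theorem one_sub_golden : 1 - 1 / Real.goldenRatio ^ 2 = lam := by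
  have h1 : Real.goldenRatio ^ 2 = Real.goldenRatio + 1 := Real.goldenRatio_sq
  have h2 : Real.goldenRatio = lam + 1 := by unfold Real.goldenRatio lam; ring
  have h3 := lam_sq
  have h4 := lam_pos
  rw [h1, h2]
  have : lam + 1 + 1 ≠ 0 := by linarith
  field_simp
  nlinarith

theorem M0_golden : M0 Real.goldenRatio = lin q2 (-q2) q2 q2 '' Mst lam := by
  rw [M0_eq Real.one_lt_goldenRatio, one_sub_golden]

theorem Mst_eq_M0 : Mst lam = lin q2 q2 (-q2) q2 '' M0 Real.goldenRatio := by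
  have hq := q2_sq
  rw [M0_golden]
  have key : ∀ z : ℝ × ℝ, lin q2 q2 (-q2) q2 (lin q2 (-q2) q2 q2 z) = z := by
    intro z
    rw [lin_lin]
    simp only [lin_apply]
    ext
    · simp only
      linear_combination (2 * z.1) * hq
    · simp only
      linear_combination (2 * z.2) * hq
  ext z
  constructor
  · intro hz
    exact ⟨_, ⟨z, hz, rfl⟩, key z⟩
  · rintro ⟨_, ⟨w, hw, rfl⟩, rfl⟩
    rw [key]
    exact hw

theorem rot_det : q2 * q2 - -q2 * q2 = 1 := by
  have := q2_sq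
  linarith

theorem area_M0 {a : ℝ} (ha : 1 < a) : H32.HT.area (M0 a) = H32.HT.area (Mst (1 - 1 / a ^ 2)) := by
  rw [M0_eq ha, area_image_lin, rot_det]
  simp

theorem area_polar_M0 {a : ℝ} (ha : 1 < a) : H32.HT.area (H32.HT.polar (M0 a)) =
    H32.HT.area (H32.HT.polar (Mst (1 - 1 / a ^ 2))) := by
  rw [M0_eq ha, area_polar_image_lin _ _ _ _ (by rw [rot_det]; norm_num), rot_det]
  simp

/-- From affine equivalences to matrices. -/
theorem of_affine {K : Set (ℝ × ℝ)} (T : (ℝ × ℝ) ≃ᵃ[ℝ] (ℝ × ℝ))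
    (hK : K = T '' M0 Real.goldenRatio) : ∃ a b c d : ℝ, a * d - b * c ≠ 0 ∧ ∃ g : ℝ × ℝ,
      K = (fun x => g + x) '' (lin a b c d '' Mst lam) := by
  set α := (T.linear (1, 0)).1 with hα
  set γ := (T.linear (1, 0)).2 with hγ
  set β := (T.linear (0, 1)).1 with hβ
  set δ := (T.linear (0, 1)).2 with hδ
  have hlin : (T.linear : (ℝ × ℝ) →ₗ[ℝ] (ℝ × ℝ)) = lin α β γ δ := by
    apply LinearMap.ext
    intro z
    have hz : z = z.1 • ((1, 0) : ℝ × ℝ) + z.2 • ((0, 1) : ℝ × ℝ) := by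
      ext <;> simp
    have e1 : T.linear z = z.1 • T.linear (1, 0) + z.2 • T.linear (0, 1) := by
      conv_lhs => rw [hz]
      rw [map_add, map_smul, map_smul]
    rw [LinearEquiv.coe_coe, e1, lin_apply]
    ext
    · simp only [Prod.fst_add, Prod.smul_fst, smul_eq_mul]
      rw [← hα, ← hβ]; ring
    · simp only [Prod.snd_add, Prod.smul_snd, smul_eq_mul]
      rw [← hγ, ← hδ]; ring
  have hdet : α * δ - β * γ ≠ 0 := by
    rw [← det_lin, ← hlin]
    exact (LinearEquiv.isUnit_det' T.linear).ne_zero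
  have hT : ∀ z, T z = T 0 + lin α β γ δ z := by
    intro z
    have := T.map_vadd 0 z
    simp only [vadd_eq_add, add_zero] at this
    rw [this, add_comm]
    congr 1
    rw [← hlin]
    rfl
  have hq := q2_sq
  refine ⟨α * q2 + β * q2, α * -q2 + β * q2, γ * q2 + δ * q2, γ * -q2 + δ * q2, ?_, T 0, ?_⟩
  · have : (α * q2 + β * q2) * (γ * -q2 + δ * q2) - (α * -q2 + β * q2) * (γ * q2 + δ * q2) =
        α * δ - β * γ := by
      linear_combination (2 * α * δ - 2 * β * γ) * hq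
    rw [this]
    exact hdet
  · rw [hK, M0_golden]
    ext z
    constructor
    · rintro ⟨_, ⟨w, hw, rfl⟩, rfl⟩
      refine ⟨_, ⟨w, hw, rfl⟩, ?_⟩
      simp only
      rw [hT (lin q2 (-q2) q2 q2 w), lin_lin]
    · rintro ⟨_, ⟨w, hw, rfl⟩, rfl⟩
      refine ⟨_, ⟨w, hw, rfl⟩, ?_⟩
      simp only
      rw [hT (lin q2 (-q2) q2 q2 w), lin_lin]

/-- From matrices to affine equivalences. -/
theorem to_affine {K : Set (ℝ × ℝ)} {a b c d : ℝ} (hdet : a * d - b * c ≠ 0) {g : ℝ × ℝ}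
    (hK : K = (fun x => g + x) '' (lin a b c d '' Mst lam)) :
    ∃ T : (ℝ × ℝ) ≃ᵃ[ℝ] (ℝ × ℝ), K = T '' M0 Real.goldenRatio := by
  have hq := q2_sq
  have hdet2 : LinearMap.det (lin (a * q2 + b * -q2) (a * q2 + b * q2) (c * q2 + d * -q2)
      (c * q2 + d * q2)) ≠ 0 := by
    rw [det_lin]
    have : (a * q2 + b * -q2) * (c * q2 + d * q2) - (a * q2 + b * q2) * (c * q2 + d * -q2) =
        a * d - b * c := by
      linear_combination (2 * a * d - 2 * b * c) * hq
    rw [this]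
    exact hdet
  let e := LinearMap.equivOfDetNeZero _ hdet2
  have he : ∀ z, e z = lin (a * q2 + b * -q2) (a * q2 + b * q2) (c * q2 + d * -q2)
      (c * q2 + d * q2) z := fun z => rfl
  refine ⟨e.toAffineEquiv.trans (AffineEquiv.constVAdd ℝ (ℝ × ℝ) g), ?_⟩
  rw [hK, Mst_eq_M0]
  ext z
  constructor
  · rintro ⟨_, ⟨_, ⟨w, hw, rfl⟩, rfl⟩, rfl⟩
    refine ⟨w, hw, ?_⟩
    simp only
    rw [lin_lin]
    rfl
  · rintro ⟨w, hw, rfl⟩
    refine ⟨_, ⟨_, ⟨w, hw, rfl⟩, rfl⟩, ?_⟩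
    simp only
    rw [lin_lin]
    rfl

theorem cTr_le {K : Set (ℝ × ℝ)} (hK : IsBody K) : cTr K ≤ best / Real.pi ∧
    (cTr K = best / Real.pi ↔ ∃ T : (ℝ × ℝ) ≃ᵃ[ℝ] (ℝ × ℝ), K = T '' M0 Real.goldenRatio) := by
  obtain ⟨x0, hx0, y0, hy0, hD, hm, hg⟩ := greatest hK
  have hc : cTr K = (H32.HT.area K + 4 * dt x0 y0) *
      H32.HT.area (H32.HT.polar (H32.HT.relBall K)) / Real.pi := hg.csSup_eq
  obtain ⟨h1, h2⟩ := general_bound hK.1 hK.2.1 hK.2.2 hx0 hy0 hD hm
  have hpi := Real.pi_pos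
  refine ⟨by rw [hc]; exact div_le_div_of_nonneg_right h1 hpi.le, ?_, ?_⟩
  · intro he
    rw [hc, div_left_inj' hpi.ne'] at he
    obtain ⟨g, hgK⟩ := h2 he
    have hdet : x0.1 * y0.2 - y0.1 * x0.2 ≠ 0 := by
      have : x0.1 * y0.2 - y0.1 * x0.2 = dt x0 y0 := by unfold dt; ring
      rw [this]
      exact hD.ne'
    exact to_affine hdet hgK
  · rintro ⟨T, hT⟩
    obtain ⟨a, b, c, d, hdet, g, hg2⟩ := of_affine T hT
    have h3 := affine_bound hdet g hg2 hm
    rw [hc, div_left_inj' hpi.ne']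
    exact le_antisymm h1 h3

theorem isBody_M0 : IsBody (M0 Real.goldenRatio) := by
  rw [M0_golden]
  refine ⟨nrm_ext.cvx.linear_image _,
    nrm_ext.isCompact.image (LinearMap.continuous_of_finiteDimensional _), ?_⟩
  have h0 : (0 : ℝ × ℝ) ∈ interior (Mst lam) := mem_interior_iff_mem_nhds.2 nrm_ext.nhds
  have hdet : LinearMap.det (lin q2 (-q2) q2 q2) ≠ 0 := by
    rw [det_lin, rot_det]; norm_num
  let e := (LinearMap.equivOfDetNeZero _ hdet).toContinuousLinearEquiv.toHomeomorph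
  have he : lin q2 (-q2) q2 q2 '' Mst lam = e '' Mst lam := rfl
  rw [he]
  have : e '' interior (Mst lam) ⊆ interior (e '' Mst lam) :=
    interior_maximal (image_mono interior_subset) (e.isOpenMap _ isOpen_interior)
  exact ⟨e 0, this ⟨0, h0, rfl⟩⟩

/-- **Full answer.** The maximum defining the Holmes-Thompson translative constant exists for every
plane convex body; `M0` (for `a` the golden ratio) is a plane convex body; a plane convex body
attains the maximum of the constant over all plane convex bodies if and only if it is an affine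
image of `M0`; and `a = golden ratio` is the unique maximiser over `a > 1` of
`area (polar (M0 a)) * (area (M0 a) + 4)`. -/
theorem result :
    (∀ K : Set (ℝ × ℝ), IsBody K → IsGreatest (values K) (cTr K)) ∧
    IsBody (M0 Real.goldenRatio) ∧
    (∀ K : Set (ℝ × ℝ), IsBody K → ((∀ K' : Set (ℝ × ℝ), IsBody K' → cTr K' ≤ cTr K) ↔
      ∃ T : (ℝ × ℝ) ≃ᵃ[ℝ] (ℝ × ℝ), K = T '' M0 Real.goldenRatio)) ∧
    (∀ a : ℝ, 1 < a → a ≠ Real.goldenRatio →
      area (polar (M0 a)) * (area (M0 a) + 4) <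
        area (polar (M0 Real.goldenRatio)) * (area (M0 Real.goldenRatio) + 4)) := by
  refine ⟨?_, isBody_M0, ?_, ?_⟩
  · intro K hK
    obtain ⟨x0, hx0, y0, hy0, hD, hm, hg⟩ := greatest hK
    have : cTr K = (H32.HT.area K + 4 * dt x0 y0) *
      H32.HT.area (H32.HT.polar (H32.HT.relBall K)) / Real.pi := hg.csSup_eq
    rw [this]
    exact hg
  · intro K hK
    have hM0 : cTr (M0 Real.goldenRatio) = best / Real.pi :=
      (cTr_le isBody_M0).2.2 ⟨AffineEquiv.refl ℝ _, by simp⟩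
    constructor
    · intro h
      apply (cTr_le hK).2.1
      apply le_antisymm (cTr_le hK).1
      rw [← hM0]
      exact h _ isBody_M0
    · intro h K' hK'
      rw [(cTr_le hK).2.2 h]
      exact (cTr_le hK').1
  · intro a ha hne
    have ha2 : 1 < a ^ 2 := by nlinarith
    have hc0 : 0 ≤ 1 - 1 / a ^ 2 := by
      rw [sub_nonneg, div_le_one (by positivity)]; exact ha2.le
    have hc1 : 1 - 1 / a ^ 2 ≤ 1 := by
      have : 0 < 1 / a ^ 2 := by positivity
      linarith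
    have hN := nrm_Mst hc0 hc1
    change H32.HT.area (H32.HT.polar (M0 a)) * (H32.HT.area (M0 a) + 4) <
      H32.HT.area (H32.HT.polar (M0 Real.goldenRatio)) *
        (H32.HT.area (M0 Real.goldenRatio) + 4)
    rw [area_polar_M0 ha, area_M0 ha, area_polar_M0 Real.one_lt_goldenRatio,
      area_M0 Real.one_lt_goldenRatio, one_sub_golden, mul_comm, mul_comm (H32.HT.area
        (H32.HT.polar (Mst lam))), Mst_best]
    apply lt_of_le_of_ne hN.le_best
    intro he
    have h1 := Mst_inj hc0 (hN.eq_best he)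
    rw [← one_sub_golden] at h1
    have h2 : 1 / a ^ 2 = 1 / Real.goldenRatio ^ 2 := by linarith
    have hgp := Real.goldenRatio_pos
    have h3 : a ^ 2 = Real.goldenRatio ^ 2 := by
      rw [one_div, one_div, inv_inj] at h2
      exact h2
    apply hne
    exact (sq_eq_sq₀ (by linarith) hgp.le).1 h3

end Pool.Agent.Results.MP_b5ed04_co.UniqueMaximizer
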